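import Pool.Agent.Helper91.OWN.LatChain

/-!
MP_36a89c_an: the chain `[-1,0] + 1 + [2,3]` is attained by a compact quasinilpotent operator on
every separable infinite-dimensional complex Hilbert space.
-/

namespace Pool.Agent.Results.MP_36a89c_an.TwoIntervals

theorem result {H : Type*} [NormedAddCommGroup H] [InnerProductSpace ℂ H] [CompleteSpace H]
    [TopologicalSpace.SeparableSpace H] (hH : ¬ FiniteDimensional ℂ H) :
    ∃ T : H →L[ℂ] H, IsCompactOperator T ∧ spectrum ℂ T = {0} ∧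
      Nonempty ({M : Submodule ℂ H // IsClosed (M : Set H) ∧ ∀ x ∈ M, T x ∈ M} ≃o
        ↥(Set.Icc (-1 : ℝ) 0 ∪ {1} ∪ Set.Icc (2 : ℝ) 3)) := by
  obtain ⟨T, h1, ⟨f⟩⟩ := Pool.Agent.Helper91.OWN.LatChain.exists_operator H hH
  have : Nontrivial H := by
    by_contra h
    rw [not_nontrivial_iff_subsingleton] at h
    exact hH inferInstance
  exact ⟨T, h1, Pool.Agent.Helper91.OWN.LatChain.spectrum_eq T h1 f, ⟨f⟩⟩

end Pool.Agent.Results.MP_36a89c_an.TwoIntervals
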